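import Pool.Agent.H65.WP.Base
import Pool.Graph.R_seed8.Results.MP_eba1ef_gt.AllConvexBodies
import Pool.Graph.R_pool_sql_team_seeded_f72693b1.Results.MP_eba1ef_gt.SymmetricLinearFactor

/-!
MP_b9beb9_co: `2 ^ n` parts of smaller width, up to a factor `O(n log n)`.

Every convex body in `ℝ^n`, `n ≥ 2`, is the disjoint union of at most
`3 · 2 ^ n · n · log (2 n² + 2 n + 1)` sets of smaller width; every centrally symmetric one is the
disjoint union of `33 n 2 ^ n` such sets (`n ≥ 1`).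
-/

set_option autoImplicit false

open Set Topology

namespace Pool.Agent.Results.MP_b9beb9_co.FactorLinear

open Pool.Agent.H65.WP

/-- **Main theorem.** -/
theorem result :
    (∀ n : ℕ, 2 ≤ n → ∀ F : Set (Eu n), Convex ℝ F → IsCompact F → (interior F).Nonempty →
      SplitsInto F ⌊3 * 2 ^ n * (n * Real.log (2 * (n : ℝ) ^ 2 + 2 * n + 1))⌋₊) ∧
    (∀ n : ℕ, 1 ≤ n → ∀ F : Set (Eu n), Convex ℝ F → IsCompact F → (interior F).Nonempty →
      (∃ c : Eu n, ∀ x ∈ F, (2 : ℝ) • c - x ∈ F) → SplitsInto F (33 * n * 2 ^ n)) := by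
  constructor
  · intro n hn F h1 h2 h3
    obtain ⟨T, hT, hTc⟩ := Pool.Agent.Results.MP_eba1ef_gt.AllConvexBodies.result n hn F h1 h2 h3
    exact splits_of_cover h2 h3 T _ (Nat.le_floor hTc) hT
  · intro n hn F h1 h2 h3 hc
    obtain ⟨⟨T, hTc, hT⟩, _⟩ := Pool.Agent.Results.MP_eba1ef_gt.SymmetricLinearFactor.result n hn F
      ⟨h1, h2, h3⟩ hc
    exact splits_of_cover h2 h3 T _ hTc hT

end Pool.Agent.Results.MP_b9beb9_co.FactorLinear
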