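import Pool.Agent.H65.WP.Base
import Pool.Graph.R_seed8.Results.MP_eba1ef_gt.FractionalTranslates

/-!
MP_b9beb9_co: the fractional form of Q1, with the case of equality.

For every convex body `F` in `ℝ^n`, `n ≥ 1`, there are finitely many subsets of `F` of smaller width
with nonnegative weights, of total weight at most `2 ^ n`, which cover every point of `F` with total
weight at least one; and `2 ^ n` is the least possible total weight if and only if `F` is a
parallelotope.
-/

set_option autoImplicit false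

open Set Topology

namespace Pool.Agent.Results.MP_b9beb9_co.FractionalForm

open Pool.Agent.H65.WP

/-- Finitely many subsets of `F` of smaller width, with nonnegative weights of sum at most `c`, cover
every point of `F` with total weight at least one. -/
def FracSplits {n : ℕ} (F : Set (Eu n)) (c : ℝ) : Prop :=
  ∃ (ι : Type) (_ : Fintype ι) (G : ι → Set (Eu n)) (w : ι → ℝ),
    (∀ i, 0 ≤ w i) ∧ ∑ i, w i ≤ c ∧ (∀ i, G i ⊆ F) ∧ (∀ i, SmallerWidth (G i) F) ∧
    ∀ x ∈ F, 1 ≤ ∑ i, (G i).indicator (fun _ => w i) x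

/-- `F` is a parallelotope -/
def IsParallelotope {n : ℕ} (F : Set (Eu n)) : Prop :=
  ∃ (p : Eu n) (v : Fin n → Eu n), LinearIndependent ℝ v ∧
    F = {x | ∃ a : Fin n → ℝ, (∀ i, 0 ≤ a i ∧ a i ≤ 1) ∧ x = p + ∑ i, a i • v i}

theorem frac_of_translates {n : ℕ} {F : Set (Eu n)} (hF : IsCompact F)
    (hFi : (interior F).Nonempty) (T : Finset (Eu n)) (w : Eu n → ℝ) (hw : ∀ t ∈ T, 0 ≤ w t)
    (hcov : ∀ x ∈ F, 1 ≤ ∑ t ∈ T, (interior F).indicator (fun _ => w t) (x - t)) :
    FracSplits F (∑ t ∈ T, w t) := by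
  classical
  obtain ⟨C, h1, h2, h3, h4⟩ := shrink hF T
  refine ⟨T, inferInstance, fun t => C t, fun t => w t, fun t => hw t t.2, ?_, fun t => h2 t,
    fun t => smallerWidth_of_subset hF hFi (Subset.refl _) (h1 t) t (h3 t), ?_⟩
  · rw [Finset.sum_coe_sort T w]
  · intro x hx
    obtain ⟨y, hy, h5⟩ := h4 x hx
    refine (hcov y hy).trans ?_
    rw [Finset.sum_coe_sort T (fun t => (C t).indicator (fun _ => w t) x)]
    refine Finset.sum_le_sum fun t ht => ?_
    by_cases h : y - t ∈ interior F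
    · have h6 : y ∈ (fun z => t + z) '' interior F := ⟨y - t, h, by simp⟩
      rw [indicator_of_mem h, indicator_of_mem (h5 t ht h6)]
    · rw [indicator_of_notMem h]
      exact indicator_nonneg (fun _ _ => hw t ht) x

/-- a subset of smaller width contains at most one vertex of a parallelotope -/
theorem vertex_unique {n : ℕ} {F : Set (Eu n)} (hF : IsCompact F) (p : Eu n) (v : Fin n → Eu n)
    (hv : LinearIndependent ℝ v)
    (hFv : F = {x | ∃ a : Fin n → ℝ, (∀ i, 0 ≤ a i ∧ a i ≤ 1) ∧ x = p + ∑ i, a i • v i})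
    (G : Set (Eu n)) (hGF : G ⊆ F) (hG : SmallerWidth G F) (s t : Finset (Fin n))
    (hs : p + ∑ i, (if i ∈ s then (1 : ℝ) else 0) • v i ∈ G)
    (ht : p + ∑ i, (if i ∈ t then (1 : ℝ) else 0) • v i ∈ G) (j : Fin n) (hjs : j ∈ s)
    (hjt : j ∉ t) : False := by
  classical
  let b : Module.Basis (Fin n) ℝ (Eu n) := basisOfLinearIndependentOfCardEqFinrank' v hv (by simp)
  have hb : ∀ i, b i = v i := fun i => by simp [b]
  let f : Eu n →L[ℝ] ℝ := LinearMap.toContinuousLinearMap (b.coord j)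
  have hf : ∀ a : Fin n → ℝ, f (∑ i, a i • v i) = a j := by
    intro a
    show b.coord j (∑ i, a i • v i) = a j
    have : (∑ i, a i • v i) = ∑ i, a i • b i := by simp only [hb]
    rw [this, Module.Basis.coord_apply, b.repr_sum_self]
  let z : Eu n := (InnerProductSpace.toDual ℝ (Eu n)).symm f
  have hz : ∀ x, inner ℝ z x = f x := fun x => by
    simp only [z]; exact InnerProductSpace.toDual_symm_apply
  have hz0 : z ≠ 0 := by
    intro h
    have h1 := hz (v j)
    rw [h, inner_zero_left] at h1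
    have h2 := hf (fun i => if i = j then 1 else 0)
    simp at h2
    rw [h2] at h1
    norm_num at h1
  have hzn : 0 < ‖z‖ := norm_pos_iff.2 hz0
  set u : Eu n := (‖z‖⁻¹) • z with hu
  have hu1 : ‖u‖ = 1 := by
    rw [hu, norm_smul, norm_inv, norm_norm, inv_mul_cancel₀ hzn.ne']
  have hin : ∀ a : Fin n → ℝ, inner ℝ u (p + ∑ i, a i • v i) = ‖z‖⁻¹ * (f p + a j) := by
    intro a
    rw [hu, real_inner_smul_left, hz, map_add, hf]
  have h1 := hG u hu1
  -- upper bound for the width of `F`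
  have hFne : F.Nonempty := ⟨_, hGF hs⟩
  have h2 : sSup ((fun x => inner ℝ u x) '' F) ≤ ‖z‖⁻¹ * (f p + 1) := by
    refine csSup_le (hFne.image _) ?_
    rintro _ ⟨x, hx, rfl⟩
    rw [hFv] at hx
    obtain ⟨a, ha, rfl⟩ := hx
    simp only [hin]
    have := (ha j).2
    gcongr
  have h3 : ‖z‖⁻¹ * f p ≤ sInf ((fun x => inner ℝ u x) '' F) := by
    refine le_csInf (hFne.image _) ?_
    rintro _ ⟨x, hx, rfl⟩
    rw [hFv] at hx
    obtain ⟨a, ha, rfl⟩ := hx
    simp only [hin]
    have := (ha j).1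
    have h0 : 0 ≤ ‖z‖⁻¹ * a j := by positivity
    rw [mul_add]
    linarith
  -- lower bound for the width of `G`
  have hba : BddAbove ((fun x => inner ℝ u x) '' G) :=
    (bdd_above_image hF u).mono (image_mono hGF)
  have hbb : BddBelow ((fun x => inner ℝ u x) '' G) :=
    (bdd_below_image hF u).mono (image_mono hGF)
  have h4 := le_csSup hba ⟨_, hs, rfl⟩
  have h5 := csInf_le hbb ⟨_, ht, rfl⟩
  simp only [hin, hjs, hjt, if_true, if_false] at h4 h5
  have e : ‖z‖⁻¹ * (f p + 1) = ‖z‖⁻¹ * f p + ‖z‖⁻¹ := by ring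
  have e' : ‖z‖⁻¹ * (f p + 0) = ‖z‖⁻¹ * f p := by ring
  rw [e] at h2 h4
  rw [e'] at h5
  linarith

theorem parallelotope_lower {n : ℕ} {F : Set (Eu n)} (hF : IsCompact F) (hP : IsParallelotope F)
    (c : ℝ) (hc : FracSplits F c) : 2 ^ n ≤ c := by
  classical
  obtain ⟨p, v, hv, hFv⟩ := hP
  obtain ⟨ι, _, G, w, hw, hwc, hGF, hGw, hcov⟩ := hc
  refine le_trans ?_ hwc
  let x : Finset (Fin n) → Eu n := fun s => p + ∑ i, (if i ∈ s then (1 : ℝ) else 0) • v i
  have hxF : ∀ s, x s ∈ F := by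
    intro s
    rw [hFv]
    refine ⟨fun i => if i ∈ s then (1 : ℝ) else 0, fun i => ?_, rfl⟩
    by_cases h : i ∈ s <;> simp [h]
  have huniq : ∀ i s t, x s ∈ G i → x t ∈ G i → s = t := by
    intro i s t hs ht
    by_contra hne
    have : ∃ j, (j ∈ s ∧ j ∉ t) ∨ (j ∈ t ∧ j ∉ s) := by
      by_contra hcon
      push Not at hcon
      apply hne
      ext j
      exact ⟨fun h => (hcon j).1 h, fun h => (hcon j).2 h⟩
    obtain ⟨j, hj | hj⟩ := this
    · exact vertex_unique hF p v hv hFv (G i) (hGF i) (hGw i) s t hs ht j hj.1 hj.2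
    · exact vertex_unique hF p v hv hFv (G i) (hGF i) (hGw i) t s ht hs j hj.1 hj.2
  have h1 : (2 : ℝ) ^ n ≤ ∑ s : Finset (Fin n), ∑ i, (G i).indicator (fun _ => w i) (x s) := by
    calc (2 : ℝ) ^ n = ∑ _s : Finset (Fin n), (1 : ℝ) := by simp
      _ ≤ _ := Finset.sum_le_sum fun s _ => hcov (x s) (hxF s)
  rw [Finset.sum_comm] at h1
  refine h1.trans (Finset.sum_le_sum fun i _ => ?_)
  by_cases h : ∃ s, x s ∈ G i
  · obtain ⟨s, hs⟩ := h
    rw [Finset.sum_eq_single s]
    · rw [indicator_of_mem hs]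
    · intro t _ hts
      rw [indicator_of_notMem]
      exact fun ht => hts (huniq i t s ht hs)
    · intro h; exact absurd (Finset.mem_univ _) h
  · push Not at h
    rw [Finset.sum_eq_zero]
    · exact hw i
    · intro t _
      exact indicator_of_notMem (h t) _

/-- **Main theorem.** -/
theorem result (n : ℕ) (hn : 1 ≤ n) (F : Set (Eu n)) (hF : Convex ℝ F) (hFc : IsCompact F)
    (hFi : (interior F).Nonempty) :
    FracSplits F (2 ^ n) ∧ ((∀ c, FracSplits F c → 2 ^ n ≤ c) ↔ IsParallelotope F) := by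
  obtain ⟨⟨T, w, hw, hwc, hcov⟩, hiff⟩ :=
    Pool.Agent.Results.MP_eba1ef_gt.FractionalTranslates.result n hn F hFc hF hFi
  constructor
  · obtain ⟨ι, hι, G, w', h1, h2, h3⟩ := frac_of_translates hFc hFi T w hw hcov
    exact ⟨ι, hι, G, w', h1, h2.trans hwc, h3⟩
  · constructor
    · intro h
      exact hiff.1 fun T w hw hcov => h _ (frac_of_translates hFc hFi T w hw hcov)
    · exact fun hP c hc => parallelotope_lower hFc hP c hc

end Pool.Agent.Results.MP_b9beb9_co.FractionalForm
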