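import Pool.Agent.H65.WP.Base
import Pool.Graph.R_seed8.Results.MP_eba1ef_gt.AllConvexBodies
import Pool.Graph.R_pool_sql_team_seeded_843ab51a.Results.MP_eba1ef_gt.OrliczSums

/-!
MP_b9beb9_co: bodies which are generalised sums of two convex bodies split into `2 ^ n` parts of
smaller width.

Let `K`, `L` be convex bodies in `ℝ^k`, `ℝ^l` with the origin in their interiors, `n = k + l` and
`3 n log (2 n² + 2 n + 1) ≤ 2 ^ min k l`. Every compact sum `{(x, y) : ψ (|x|_K, |y|_L) ≤ 1}`, with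
`ψ` continuous and strictly increasing in each variable, and every linear image of it, is the
disjoint union of `2 ^ n` sets of smaller width. This applies to the `p`-sums, `p ≥ 1`, so for
`p = 1` to the free sum (convex hull of `K ∪ L`).
-/

set_option autoImplicit false

open Set Topology

namespace Pool.Agent.Results.MP_b9beb9_co.GeneralisedSums

open Pool.Agent.H65.WP

/-- the sum of `K` and `L` along `ψ`: the set of `(x, y)` with `ψ (|x|_K, |y|_L) ≤ 1`, where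
`|x|_K` is the gauge (Minkowski functional) of `K` -/
def PsiSum {k l : ℕ} (ψ : ℝ → ℝ → ℝ) (K : Set (Eu k)) (L : Set (Eu l)) : Set (Eu k × Eu l) :=
  {z | ψ (gauge K z.1) (gauge L z.2) ≤ 1}

theorem card_bound (k l : ℕ) (c d : ℕ)
    (hkl : 3 * ((k + l : ℕ) : ℝ) * Real.log (2 * ((k + l : ℕ) : ℝ) ^ 2 + 2 * ((k + l : ℕ) : ℝ) + 1)
      ≤ 2 ^ min k l)
    (hc : (c : ℝ) ≤ 3 * 2 ^ k * (k * Real.log (2 * (k : ℝ) ^ 2 + 2 * k + 1)))
    (hd : (d : ℝ) ≤ 3 * 2 ^ l * (l * Real.log (2 * (l : ℝ) ^ 2 + 2 * l + 1))) :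
    c + d ≤ 2 ^ (k + l) := by
  set m := min k l with hm
  set n := k + l with hn
  have hkR : (0 : ℝ) ≤ k := Nat.cast_nonneg k
  have hlR : (0 : ℝ) ≤ l := Nat.cast_nonneg l
  have hnR : (n : ℝ) = k + l := by rw [hn]; push_cast; ring
  set Λ := Real.log (2 * (n : ℝ) ^ 2 + 2 * (n : ℝ) + 1) with hΛ
  have hkn : (k : ℝ) ≤ n := by rw [hnR]; linarith
  have hln : (l : ℝ) ≤ n := by rw [hnR]; linarith
  have h1 : Real.log (2 * (k : ℝ) ^ 2 + 2 * k + 1) ≤ Λ :=
    Real.log_le_log (by positivity) (by gcongr)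
  have h2 : Real.log (2 * (l : ℝ) ^ 2 + 2 * l + 1) ≤ Λ :=
    Real.log_le_log (by positivity) (by gcongr)
  have hΛ0 : 0 ≤ Λ := Real.log_nonneg (by nlinarith)
  have e1 : (2 : ℝ) ^ k * 2 ^ m ≤ 2 ^ n := by
    rw [← pow_add]
    exact pow_le_pow_right₀ (by norm_num) (by omega)
  have e2 : (2 : ℝ) ^ l * 2 ^ m ≤ 2 ^ n := by
    rw [← pow_add]
    exact pow_le_pow_right₀ (by norm_num) (by omega)
  have hc' : (c : ℝ) ≤ 3 * 2 ^ k * (k * Λ) := hc.trans (by gcongr)
  have hd' : (d : ℝ) ≤ 3 * 2 ^ l * (l * Λ) := hd.trans (by gcongr)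
  have hm0 : (0 : ℝ) < 2 ^ m := by positivity
  have h3 : ((c : ℝ) + d) * 2 ^ m ≤ 2 ^ n * 2 ^ m := by
    calc ((c : ℝ) + d) * 2 ^ m ≤ (3 * 2 ^ k * (k * Λ) + 3 * 2 ^ l * (l * Λ)) * 2 ^ m := by
          gcongr
      _ = 3 * (k * Λ) * (2 ^ k * 2 ^ m) + 3 * (l * Λ) * (2 ^ l * 2 ^ m) := by ring
      _ ≤ 3 * (k * Λ) * 2 ^ n + 3 * (l * Λ) * 2 ^ n := by gcongr
      _ = 2 ^ n * (3 * (n : ℝ) * Λ) := by rw [hnR]; ring
      _ ≤ 2 ^ n * 2 ^ m := by gcongr
  have h4 := le_of_mul_le_mul_right h3 hm0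
  exact_mod_cast h4

/-- **Main theorem.** -/
theorem result :
    ∀ (k l : ℕ), 2 ≤ k → 2 ≤ l →
    3 * ((k + l : ℕ) : ℝ) * Real.log (2 * ((k + l : ℕ) : ℝ) ^ 2 + 2 * ((k + l : ℕ) : ℝ) + 1)
      ≤ 2 ^ min k l →
    ∀ (K : Set (Eu k)) (L : Set (Eu l)), Convex ℝ K → IsCompact K → (0 : Eu k) ∈ interior K →
      Convex ℝ L → IsCompact L → (0 : Eu l) ∈ interior L →
    ∀ e : (Eu k × Eu l) ≃L[ℝ] Eu (k + l),
      (∀ ψ : ℝ → ℝ → ℝ, ContinuousOn (fun p : ℝ × ℝ => ψ p.1 p.2) (Ici 0 ×ˢ Ici 0) →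
        (∀ r r' s, 0 ≤ r → r < r' → 0 ≤ s → ψ r s < ψ r' s) →
        (∀ r s s', 0 ≤ r → 0 ≤ s → s < s' → ψ r s < ψ r s') → ψ 0 0 < 1 →
        IsCompact (PsiSum ψ K L) → SplitsInto (e '' PsiSum ψ K L) (2 ^ (k + l))) ∧
      (∀ p : ℝ, 1 ≤ p → SplitsInto (e '' PsiSum (fun r s => r ^ p + s ^ p) K L) (2 ^ (k + l))) := by
  intro k l hk hl hkl K L hKc hKk hK0 hLc hLk hL0 e
  have main : ∀ ψ : ℝ → ℝ → ℝ, ContinuousOn (fun p : ℝ × ℝ => ψ p.1 p.2) (Ici 0 ×ˢ Ici 0) →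
        (∀ r r' s, 0 ≤ r → r < r' → 0 ≤ s → ψ r s < ψ r' s) →
        (∀ r s s', 0 ≤ r → 0 ≤ s → s < s' → ψ r s < ψ r s') → ψ 0 0 < 1 →
        IsCompact (PsiSum ψ K L) → SplitsInto (e '' PsiSum ψ K L) (2 ^ (k + l)) := by
    intro ψ hψ hψ1 hψ2 hψ0 hcomp
    classical
    obtain ⟨TK, hTK, hTKc⟩ := Pool.Agent.Results.MP_eba1ef_gt.AllConvexBodies.result k hk K hKc hKk
      ⟨0, hK0⟩
    obtain ⟨TL, hTL, hTLc⟩ := Pool.Agent.Results.MP_eba1ef_gt.AllConvexBodies.result l hl L hLc hLk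
      ⟨0, hL0⟩
    obtain ⟨T, hTc, hT⟩ := Pool.Agent.Results.MP_eba1ef_gt.OrliczSums.result K hKc hKk hK0 L hLc hLk
      hL0 ψ hψ hψ1 hψ2 hψ0 TK.card TL.card ⟨TK, le_rfl, hTK⟩ ⟨TL, le_rfl, hTL⟩
    have hT' : PsiSum ψ K L ⊆ ⋃ t ∈ T, (fun x => t + x) '' interior (PsiSum ψ K L) := hT
    have hcard : T.card ≤ 2 ^ (k + l) := hTc.trans (card_bound k l _ _ hkl hTKc hTLc)
    have hint : interior (e '' PsiSum ψ K L) = e '' interior (PsiSum ψ K L) :=
      (e.toHomeomorph.image_interior (PsiSum ψ K L)).symm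
    have hne : (interior (PsiSum ψ K L)).Nonempty := by
      have h0 : ((0 : Eu k), (0 : Eu l)) ∈ PsiSum ψ K L := by
        simp only [PsiSum, mem_ofPred_eq, gauge_zero]
        exact hψ0.le
      have := hT' h0
      simp only [mem_iUnion, mem_image] at this
      obtain ⟨t, _, x, hx, _⟩ := this
      exact ⟨x, hx⟩
    refine splits_of_cover (hcomp.image e.continuous) (by rw [hint]; exact hne.image _)
      (T.image e) _ (Finset.card_image_le.trans hcard) ?_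
    rintro _ ⟨z, hz, rfl⟩
    have := hT' hz
    simp only [mem_iUnion, mem_image, exists_prop] at this
    obtain ⟨t, ht, x, hx, hxz⟩ := this
    simp only [mem_iUnion, exists_prop]
    refine ⟨e t, Finset.mem_image_of_mem _ ht, e x, ?_, ?_⟩
    · rw [hint]; exact mem_image_of_mem _ hx
    · show e t + e x = e z
      rw [← map_add, hxz]
  refine ⟨main, fun p hp => ?_⟩
  have hp0 : 0 < p := by linarith
  refine main _ ?_ ?_ ?_ ?_ ?_
  · refine ContinuousOn.add ?_ ?_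
    · exact (Real.continuous_rpow_const hp0.le).comp_continuousOn continuousOn_fst
    · exact (Real.continuous_rpow_const hp0.le).comp_continuousOn continuousOn_snd
  · intro r r' s hr hrr _
    have := Real.rpow_lt_rpow hr hrr hp0
    linarith
  · intro r s s' _ hs hss
    have := Real.rpow_lt_rpow hs hss hp0
    linarith
  · simp only [Real.zero_rpow hp0.ne']; norm_num
  · -- compactness
    have hK0' : K ∈ 𝓝 (0 : Eu k) := mem_interior_iff_mem_nhds.1 hK0
    have hL0' : L ∈ 𝓝 (0 : Eu l) := mem_interior_iff_mem_nhds.1 hL0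
    have hcont : Continuous (fun z : Eu k × Eu l => gauge K z.1 ^ p + gauge L z.2 ^ p) := by
      refine Continuous.add ?_ ?_
      · exact (Real.continuous_rpow_const hp0.le).comp
          ((continuous_gauge hKc hK0').comp continuous_fst)
      · exact (Real.continuous_rpow_const hp0.le).comp
          ((continuous_gauge hLc hL0').comp continuous_snd)
    have hclosed : IsClosed (PsiSum (fun r s => r ^ p + s ^ p) K L) :=
      isClosed_le hcont continuous_const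
    refine (hKk.prod hLk).of_isClosed_subset hclosed ?_
    rintro ⟨x, y⟩ hz
    have hz' : gauge K x ^ p + gauge L y ^ p ≤ 1 := hz
    have hx0 : 0 ≤ gauge K x ^ p := Real.rpow_nonneg (gauge_nonneg _) _
    have hy0 : 0 ≤ gauge L y ^ p := Real.rpow_nonneg (gauge_nonneg _) _
    have hx : gauge K x ≤ 1 := by
      by_contra h
      push Not at h
      have := Real.one_lt_rpow h hp0
      linarith
    have hy : gauge L y ≤ 1 := by
      by_contra h
      push Not at h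
      have := Real.one_lt_rpow h hp0
      linarith
    rw [gauge_le_one_iff_mem_closure hKc hK0', hKk.isClosed.closure_eq] at hx
    rw [gauge_le_one_iff_mem_closure hLc hL0', hLk.isClosed.closure_eq] at hy
    exact ⟨hx, hy⟩

end Pool.Agent.Results.MP_b9beb9_co.GeneralisedSums
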